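import Pool.Agent.Helper44.CM.StmtsB5

/-!
# Project MM, block B5, row EX: existence of the moment map potential by the continuity method
-/

open MeasureTheory

namespace MM7

open CM

theorem st_EX (hBASE : ST_BASE) (hFS : ST_FSCALE) (hPACK : ST_PACK) (hLS : ST_LSTEP)
    (hNS : ST_NSTEP) (hALG : ST_HBALG) : ST_EX := by
  intro n c K R0 F hF
  obtain ⟨-, -, hmono, -, hsmul, -⟩ := hALG n
  obtain ⟨K2, hK2⟩ := hPACK n c K R0
  obtain ⟨ε, hε, hstep⟩ := hLS n c K2 hF.c_pos
  obtain ⟨δ, hδ, hns⟩ := hNS n c K R0 ε hε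
  have hKpos : 0 < K := lt_of_lt_of_le one_pos hF.K_ge
  obtain ⟨m, hm⟩ := exists_nat_gt (K / δ)
  have hm0 : (0 : ℝ) < m := lt_of_le_of_lt (div_nonneg hKpos.le hδ.le) hm
  have hKm : K / m ≤ δ := by
    rw [div_le_iff₀ hm0]
    rw [div_lt_iff₀ hδ] at hm
    linarith
  have hB3 : HB 3 K F := hmono 5 3 K K F (by norm_num) le_rfl hF.bd
  have key : ∀ j : ℕ, j ≤ m → ∃ V : E n → ℝ,
      Sol (fun x => ((j : ℝ) / m) * F x) V ∧ LinSolv V := by
    intro j
    induction j with
    | zero =>
      intro _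
      refine ⟨qn, ?_, (hBASE n).2⟩
      have h0 : (fun x : E n => (((0 : ℕ) : ℝ) / m) * F x) = fun _ => 0 := by
        funext x
        simp
      rw [h0]
      exact (hBASE n).1
    | succ j ih =>
      intro hj
      obtain ⟨V, hV, hL⟩ := ih (by omega)
      have hjm : ((j : ℝ) + 1) ≤ m := by exact_mod_cast hj
      have h1 : FOK c K R0 (fun x => ((j : ℝ) / m) * F x) :=
        hFS n c K R0 F hF _ (div_nonneg (Nat.cast_nonneg j) hm0.le) (by
          rw [div_le_one hm0]
          linarith)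
      have h2 : FOK c K R0 (fun x => (((j + 1 : ℕ) : ℝ) / m) * F x) :=
        hFS n c K R0 F hF _ (div_nonneg (Nat.cast_nonneg _) hm0.le) (by
          rw [div_le_one hm0]
          push_cast
          exact hjm)
      have h3 : HB 3 δ (fun x => (((j + 1 : ℕ) : ℝ) / m) * F x - ((j : ℝ) / m) * F x) := by
        have h4 := hsmul 3 K (1 / m) F hB3
        have h5 : (fun x : E n => (((j + 1 : ℕ) : ℝ) / m) * F x - ((j : ℝ) / m) * F x) =
            fun x => (1 / (m : ℝ)) * F x := by
          funext x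
          push_cast
          field_simp
          ring
        rw [h5]
        refine hmono 3 3 _ _ _ le_rfl ?_ h4
        rw [abs_of_pos (by positivity)]
        calc 1 / (m : ℝ) * K = K / m := by ring
          _ ≤ δ := hKm
      obtain ⟨V', hV', hd⟩ := hns _ _ V h1 h2 h3 hV hL
      exact ⟨V', hV', hstep V V' hV.even hV'.even (hK2 _ V h1 hV) (hK2 _ V' h2 hV') hd hL⟩
  obtain ⟨V, hV, hL⟩ := key m le_rfl
  have h6 : (fun x : E n => ((m : ℝ) / m) * F x) = F := by
    funext x
    rw [div_self hm0.ne', one_mul]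
  rw [h6] at hV
  exact ⟨V, hV, hL⟩

end MM7
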